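import Mathlib

set_option autoImplicit false

open Filter Topology IntermediateField IntermediateField.algebraAdjoinAdjoin

namespace Pool.Agent.BDD44

instance cMv (k : ℕ) : Countable (MvPolynomial (Fin k) ℚ) := by
  have h := MvPolynomial.cardinalMk_le_max (σ := Fin k) (R := ℚ)
  have h2 : Cardinal.mk (MvPolynomial (Fin k) ℚ) ≤ Cardinal.aleph0 := by
    refine h.trans ?_
    simp
  exact Cardinal.mk_le_aleph0_iff.mp h2

instance cPol (k : ℕ) : Countable (Polynomial (MvPolynomial (Fin k) ℚ)) := by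
  have h := Polynomial.cardinalMk_le_max (R := MvPolynomial (Fin k) ℚ)
  have h2 : Cardinal.mk (Polynomial (MvPolynomial (Fin k) ℚ)) ≤ Cardinal.aleph0 := by
    refine h.trans ?_
    simp
  exact Cardinal.mk_le_aleph0_iff.mp h2


theorem cont_aeval {k : ℕ} (b : MvPolynomial (Fin k) ℚ) :
    Continuous fun x : Fin k → ℂ => MvPolynomial.aeval x b := by
  have : (fun x : Fin k → ℂ => MvPolynomial.aeval x b) =
      fun x => MvPolynomial.eval x (MvPolynomial.map (algebraMap ℚ ℂ) b) := by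
    ext x
    rw [MvPolynomial.eval_map, MvPolynomial.aeval_def]
  rw [this]
  exact MvPolynomial.continuous_eval _

/-- Specialisation of the coefficients at `x`. -/
noncomputable def spec {k : ℕ} (x : Fin k → ℂ) (P : Polynomial (MvPolynomial (Fin k) ℚ)) :
    Polynomial ℂ :=
  P.map (MvPolynomial.aeval x : MvPolynomial (Fin k) ℚ →ₐ[ℚ] ℂ).toRingHom

theorem spec_coeff {k : ℕ} (x : Fin k → ℂ) (P : Polynomial (MvPolynomial (Fin k) ℚ)) (i : ℕ) :
    (spec x P).coeff i = MvPolynomial.aeval x (P.coeff i) := by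
  simp [spec, Polynomial.coeff_map]

theorem spec_monic {k : ℕ} (x : Fin k → ℂ) (P : Polynomial (MvPolynomial (Fin k) ℚ))
    (hP : P.Monic) : (spec x P).Monic := hP.map _

theorem spec_deg {k : ℕ} (x : Fin k → ℂ) (P : Polynomial (MvPolynomial (Fin k) ℚ))
    (hP : P.Monic) : (spec x P).natDegree = P.natDegree := hP.natDegree_map _

theorem eval_spec {k : ℕ} (x : Fin k → ℂ) (P : Polynomial (MvPolynomial (Fin k) ℚ))
    (hP : P.Monic) (β : ℂ) : (spec x P).eval β =
      (∑ i ∈ Finset.range P.natDegree, MvPolynomial.aeval x (P.coeff i) * β ^ i)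
        + β ^ P.natDegree := by
  rw [Polynomial.eval_eq_sum_range, spec_deg x P hP, Finset.sum_range_succ]
  congr 1
  · exact Finset.sum_congr rfl fun i _ => by rw [spec_coeff]
  · have := (spec_monic x P hP).coeff_natDegree
    rw [spec_deg x P hP] at this
    rw [this, one_mul]

theorem prod_lower (s : Multiset ℂ) (β : ℂ) (ε : ℝ) (hε : 0 ≤ ε) (h : ∀ r ∈ s, ε ≤ ‖β - r‖) :
    ε ^ Multiset.card s ≤ ‖(s.map (fun r => β - r)).prod‖ := by
  induction s using Multiset.induction_on with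
  | empty => simp
  | cons a s ih =>
    rw [Multiset.card_cons, Multiset.map_cons, Multiset.prod_cons, norm_mul, pow_succ, mul_comm]
    exact mul_le_mul (h a (Multiset.mem_cons_self a s))
      (ih fun r hr => h r (Multiset.mem_cons_of_mem hr)) (pow_nonneg hε _) (norm_nonneg _)

/-- A root of a monic polynomial is at most `1 +` the sum of the absolute values of its
coefficients. -/
theorem root_bound {k : ℕ} (x : Fin k → ℂ) (P : Polynomial (MvPolynomial (Fin k) ℚ))
    (hP : P.Monic) (β : ℂ) (hβ : (spec x P).eval β = 0) :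
    ‖β‖ ≤ 1 + ∑ i ∈ Finset.range P.natDegree, ‖MvPolynomial.aeval x (P.coeff i)‖ := by
  rw [eval_spec x P hP] at hβ
  set d := P.natDegree with hd
  have hsum0 : 0 ≤ ∑ i ∈ Finset.range d, ‖MvPolynomial.aeval x (P.coeff i)‖ :=
    Finset.sum_nonneg fun i _ => norm_nonneg _
  by_contra hcon
  push Not at hcon
  have h1 : 1 < ‖β‖ := by linarith
  have hd0 : d ≠ 0 := by
    intro h0
    rw [h0] at hβ
    simp at hβ
  have e1 : ‖β‖ ^ d ≤ ∑ i ∈ Finset.range d, ‖MvPolynomial.aeval x (P.coeff i)‖ * ‖β‖ ^ i := by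
    have : β ^ d = -(∑ i ∈ Finset.range d, MvPolynomial.aeval x (P.coeff i) * β ^ i) := by
      linear_combination hβ
    calc ‖β‖ ^ d = ‖β ^ d‖ := (norm_pow β d).symm
      _ = ‖∑ i ∈ Finset.range d, MvPolynomial.aeval x (P.coeff i) * β ^ i‖ := by
          rw [this, norm_neg]
      _ ≤ ∑ i ∈ Finset.range d, ‖MvPolynomial.aeval x (P.coeff i) * β ^ i‖ := norm_sum_le _ _
      _ = _ := Finset.sum_congr rfl fun i _ => by rw [norm_mul, norm_pow]
  have e2 : ∑ i ∈ Finset.range d, ‖MvPolynomial.aeval x (P.coeff i)‖ * ‖β‖ ^ i ≤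
      (∑ i ∈ Finset.range d, ‖MvPolynomial.aeval x (P.coeff i)‖) * ‖β‖ ^ (d - 1) := by
    rw [Finset.sum_mul]
    refine Finset.sum_le_sum fun i hi => ?_
    have hi' : i ≤ d - 1 := by
      have := Finset.mem_range.mp hi
      omega
    exact mul_le_mul_of_nonneg_left (pow_le_pow_right₀ h1.le hi') (norm_nonneg _)
  have e3 : ‖β‖ ^ d = ‖β‖ * ‖β‖ ^ (d - 1) := by
    rw [← pow_succ']
    congr 1
    omega
  have e4 : (0:ℝ) < ‖β‖ ^ (d - 1) := by positivity
  have e5 : ‖β‖ * ‖β‖ ^ (d - 1) ≤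
      (∑ i ∈ Finset.range d, ‖MvPolynomial.aeval x (P.coeff i)‖) * ‖β‖ ^ (d - 1) := by
    rw [← e3]; exact e1.trans e2
  have := le_of_mul_le_mul_right e5 e4
  linarith

/-- Roots of a monic family: bounded and upper semicontinuous. -/
theorem root_cont {k : ℕ} (x₀ : Fin k → ℂ) (P : Polynomial (MvPolynomial (Fin k) ℚ))
    (hP : P.Monic) : ∃ R : ℝ, 0 < R ∧ ∀ ε : ℝ, 0 < ε → ∀ᶠ x in 𝓝 x₀, ∀ β : ℂ,
      (spec x P).eval β = 0 → ‖β‖ ≤ R ∧ ∃ β₀ : ℂ, (spec x₀ P).eval β₀ = 0 ∧ ‖β - β₀‖ < ε := by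
  set d := P.natDegree with hd
  let B : (Fin k → ℂ) → ℝ := fun x =>
    1 + ∑ i ∈ Finset.range d, ‖MvPolynomial.aeval x (P.coeff i)‖
  have hB : Continuous B :=
    continuous_const.add (continuous_finsetSum _ fun i _ => (cont_aeval _).norm)
  have hB1 : ∀ x, 1 ≤ B x := fun x => by
    have : 0 ≤ ∑ i ∈ Finset.range d, ‖MvPolynomial.aeval x (P.coeff i)‖ :=
      Finset.sum_nonneg fun i _ => norm_nonneg _
    simp only [B]; linarith
  set R := B x₀ + 1 with hR
  have hR1 : 1 ≤ R := by have := hB1 x₀; linarith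
  refine ⟨R, by linarith, fun ε hε => ?_⟩
  let G : (Fin k → ℂ) → ℝ := fun x =>
    ∑ i ∈ Finset.range d, ‖MvPolynomial.aeval x₀ (P.coeff i) - MvPolynomial.aeval x (P.coeff i)‖
      * R ^ d
  have hG : Continuous G :=
    continuous_finsetSum _ fun i _ => ((continuous_const.sub (cont_aeval _)).norm).mul
      continuous_const
  have hG0 : G x₀ = 0 := by simp [G]
  have ev1 : ∀ᶠ x in 𝓝 x₀, B x < R := hB.continuousAt.eventually_lt continuousAt_const
    (by rw [hR]; linarith)
  have ev2 : ∀ᶠ x in 𝓝 x₀, G x < ε ^ d := hG.continuousAt.eventually_lt continuousAt_const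
    (by rw [hG0]; positivity)
  filter_upwards [ev1, ev2] with x h1 h2 β hβ
  have hβR : ‖β‖ ≤ R := (root_bound x P hP β hβ).trans h1.le
  refine ⟨hβR, ?_⟩
  by_contra hcon
  push Not at hcon
  have hmon := spec_monic x₀ P hP
  have hspl : (spec x₀ P).Splits := IsAlgClosed.splits _
  have hprod := hspl.eval_eq_prod_roots_of_monic hmon β
  have hcard : Multiset.card (spec x₀ P).roots = d := by
    rw [hd, ← spec_deg x₀ P hP]
    exact (Polynomial.splits_iff_card_roots.mp hspl)
  have hlow := prod_lower (spec x₀ P).roots β ε hε.le (fun r hr => by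
    have hr' := (Polynomial.mem_roots'.mp hr).2
    exact hcon r hr')
  rw [← hprod, hcard] at hlow
  have hup : ‖(spec x₀ P).eval β‖ ≤ G x := by
    have : (spec x₀ P).eval β = (spec x₀ P).eval β - (spec x P).eval β := by rw [hβ, sub_zero]
    rw [this, eval_spec x₀ P hP, eval_spec x P hP]
    have e : ((∑ i ∈ Finset.range P.natDegree, MvPolynomial.aeval x₀ (P.coeff i) * β ^ i)
        + β ^ P.natDegree) - ((∑ i ∈ Finset.range P.natDegree,
          MvPolynomial.aeval x (P.coeff i) * β ^ i) + β ^ P.natDegree) =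
        ∑ i ∈ Finset.range d, (MvPolynomial.aeval x₀ (P.coeff i) -
          MvPolynomial.aeval x (P.coeff i)) * β ^ i := by
      rw [add_sub_add_right_eq_sub, ← Finset.sum_sub_distrib]
      exact Finset.sum_congr rfl fun i _ => by ring
    rw [e]
    refine (norm_sum_le _ _).trans (Finset.sum_le_sum fun i hi => ?_)
    rw [norm_mul, norm_pow]
    refine mul_le_mul_of_nonneg_left ?_ (norm_nonneg _)
    have hi' := (Finset.mem_range.mp hi).le
    exact (pow_le_pow_left₀ (norm_nonneg _) hβR i).trans (pow_le_pow_right₀ hR1 hi')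
  linarith

/-- The field `ℚ(i)`. -/
noncomputable def K0 : IntermediateField ℚ ℂ := IntermediateField.adjoin ℚ {Complex.I}

theorem integral_I : IsIntegral ℚ Complex.I := by
  refine ⟨Polynomial.X ^ 2 + 1, ?_, ?_⟩
  · exact Polynomial.monic_X_pow_add_C (1 : ℚ) (by norm_num)
  · simp [Polynomial.eval₂_add, Polynomial.eval₂_pow]

instance fdK0 : FiniteDimensional ℚ K0 := IntermediateField.adjoin.finiteDimensional integral_I

theorem finrank_K0 : Module.finrank ℚ K0 ≤ 2 := by
  have h := IntermediateField.adjoin.finrank integral_I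
  unfold K0
  rw [h]
  have hm : (Polynomial.X ^ 2 + 1 : Polynomial ℚ).Monic :=
    Polynomial.monic_X_pow_add_C (1 : ℚ) (by norm_num)
  have h0 : Polynomial.aeval Complex.I (Polynomial.X ^ 2 + 1 : Polynomial ℚ) = 0 := by simp
  have := Polynomial.natDegree_le_natDegree (minpoly.min ℚ Complex.I hm h0)
  refine this.trans ?_
  have e : (Polynomial.X ^ 2 + 1 : Polynomial ℚ) = Polynomial.X ^ 2 + Polynomial.C 1 := by simp
  rw [e, Polynomial.natDegree_X_pow_add_C]

theorem root_deg {k : ℕ} (x : Fin k → ℂ) (hx : ∀ i, x i ∈ K0)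
    (P : Polynomial (MvPolynomial (Fin k) ℚ)) (hP : P.Monic) (β : ℂ)
    (hβ : (spec x P).eval β = 0) :
    IsIntegral ℚ β ∧ Module.finrank ℚ (IntermediateField.adjoin ℚ {β}) ≤ 2 * P.natDegree := by
  let y : Fin k → K0 := fun i => ⟨x i, hx i⟩
  let Q : Polynomial K0 := P.map (MvPolynomial.aeval y : MvPolynomial (Fin k) ℚ →ₐ[ℚ] K0).toRingHom
  have hQ : Q.Monic := hP.map _
  have hcomp : (algebraMap K0 ℂ).comp
      (MvPolynomial.aeval y : MvPolynomial (Fin k) ℚ →ₐ[ℚ] K0).toRingHom =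
      (MvPolynomial.aeval x : MvPolynomial (Fin k) ℚ →ₐ[ℚ] ℂ).toRingHom := by
    apply MvPolynomial.ringHom_ext
    · intro r; simp
    · intro i; simp [y, IntermediateField.algebraMap_apply]
  have hroot : Polynomial.aeval β Q = 0 := by
    rw [Polynomial.aeval_def, Polynomial.eval₂_map, hcomp]
    rw [spec, Polynomial.eval_map] at hβ
    exact hβ
  have hint : IsIntegral K0 β := ⟨Q, hQ, hroot⟩
  have hdeg : (minpoly K0 β).natDegree ≤ P.natDegree := by
    have := Polynomial.natDegree_le_natDegree (minpoly.min K0 β hQ hroot)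
    rwa [hP.natDegree_map] at this
  have hfr := IntermediateField.adjoin.finrank hint
  have : FiniteDimensional K0 (IntermediateField.adjoin K0 {β}) :=
    IntermediateField.adjoin.finiteDimensional hint
  let E := IntermediateField.adjoin K0 {β}
  have hmul : Module.finrank ℚ K0 * Module.finrank K0 E = Module.finrank ℚ E :=
    Module.finrank_mul_finrank ℚ K0 E
  have : FiniteDimensional ℚ E := FiniteDimensional.trans ℚ K0 E
  let E' : IntermediateField ℚ ℂ := E.restrictScalars ℚ
  have : FiniteDimensional ℚ E' := (inferInstance : FiniteDimensional ℚ E)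
  have hle : IntermediateField.adjoin ℚ {β} ≤ E' := by
    rw [IntermediateField.adjoin_le_iff, Set.singleton_subset_iff]
    exact IntermediateField.mem_adjoin_simple_self K0 β
  refine ⟨?_, ?_⟩
  · have : Algebra.IsIntegral ℚ K0 := Algebra.IsIntegral.of_finite ℚ K0
    exact isIntegral_trans β hint
  · calc Module.finrank ℚ (IntermediateField.adjoin ℚ {β}) ≤ Module.finrank ℚ E' :=
          IntermediateField.finrank_le_of_le_right hle
      _ = Module.finrank ℚ K0 * Module.finrank K0 E := hmul.symm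
      _ ≤ 2 * P.natDegree := Nat.mul_le_mul finrank_K0 (hfr.le.trans hdeg)

theorem tuple_deg {m : ℕ} (β c : Fin m → ℂ) (d : Fin m → ℕ) (hc : ∀ j, c j ∈ K0)
    (hβ : ∀ j, IsIntegral ℚ (β j) ∧
      Module.finrank ℚ (IntermediateField.adjoin ℚ {β j}) ≤ d j) :
    (∀ j, IsAlgebraic ℚ (β j * c j)) ∧
    Module.finrank ℚ (IntermediateField.adjoin ℚ (Set.range fun j => β j * c j)) ≤
      2 * ∏ j, d j := by
  have key : ∀ s : Finset (Fin m),
      FiniteDimensional ℚ (K0 ⊔ s.sup fun j => IntermediateField.adjoin ℚ {β j} :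
        IntermediateField ℚ ℂ) ∧
      Module.finrank ℚ (K0 ⊔ s.sup fun j => IntermediateField.adjoin ℚ {β j} :
        IntermediateField ℚ ℂ) ≤ 2 * ∏ j ∈ s, d j := by
    intro s
    induction s using Finset.induction_on with
    | empty =>
      rw [Finset.sup_empty, sup_bot_eq, Finset.prod_empty, mul_one]
      exact ⟨fdK0, finrank_K0⟩
    | insert a s ha ih =>
      rw [Finset.sup_insert, Finset.prod_insert ha, sup_left_comm]
      obtain ⟨i1, i2⟩ := ih
      have := i1
      have : FiniteDimensional ℚ (IntermediateField.adjoin ℚ {β a}) :=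
        IntermediateField.adjoin.finiteDimensional (hβ a).1
      refine ⟨IntermediateField.finiteDimensional_sup _ _, ?_⟩
      refine (IntermediateField.finrank_sup_le _ _).trans ?_
      calc _ ≤ d a * (2 * ∏ j ∈ s, d j) := Nat.mul_le_mul (hβ a).2 i2
        _ = _ := by ring
  obtain ⟨k1, k2⟩ := key Finset.univ
  have := k1
  have hmem : ∀ j, β j * c j ∈ (K0 ⊔ Finset.univ.sup fun j => IntermediateField.adjoin ℚ {β j} :
        IntermediateField ℚ ℂ) := by
    intro j
    refine mul_mem ?_ ((le_sup_left : K0 ≤ _) (hc j))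
    have h1 : IntermediateField.adjoin ℚ {β j} ≤ (K0 ⊔ Finset.univ.sup fun j =>
        IntermediateField.adjoin ℚ {β j} : IntermediateField ℚ ℂ) :=
      (Finset.le_sup (f := fun j => IntermediateField.adjoin ℚ {β j}) (Finset.mem_univ j)).trans
        le_sup_right
    exact h1 (IntermediateField.mem_adjoin_simple_self ℚ (β j))
  have hle : IntermediateField.adjoin ℚ (Set.range fun j => β j * c j) ≤
      (K0 ⊔ Finset.univ.sup fun j => IntermediateField.adjoin ℚ {β j} :
        IntermediateField ℚ ℂ) := by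
    rw [IntermediateField.adjoin_le_iff]
    rintro _ ⟨j, rfl⟩
    exact hmem j
  refine ⟨fun j => ?_, (IntermediateField.finrank_le_of_le_right hle).trans k2⟩
  have hcj : IsIntegral ℚ (c j) := by
    have : Algebra.IsIntegral ℚ K0 := Algebra.IsIntegral.of_finite ℚ K0
    have := Algebra.IsIntegral.isIntegral (R := ℚ) (⟨c j, hc j⟩ : K0)
    exact this.map (K0.val)
  exact ((hβ j).1.mul hcj).isAlgebraic

theorem dense_K0 : Dense {z : ℂ | z ∈ K0} := by
  have h1 : DenseRange (fun p : ℚ × ℚ => ((p.1 : ℝ), (p.2 : ℝ))) :=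
    DenseRange.prodMap (Rat.denseRange_cast (𝕜 := ℝ)) (Rat.denseRange_cast (𝕜 := ℝ))
  have h2 : DenseRange (fun p : ℚ × ℚ => Complex.equivRealProdCLM.symm ((p.1 : ℝ), (p.2 : ℝ))) :=
    Complex.equivRealProdCLM.symm.surjective.denseRange.comp h1
      Complex.equivRealProdCLM.symm.continuous
  refine h2.mono ?_
  rintro _ ⟨p, rfl⟩
  have hI : Complex.I ∈ K0 := IntermediateField.mem_adjoin_simple_self ℚ Complex.I
  have e : Complex.equivRealProdCLM.symm ((p.1 : ℝ), (p.2 : ℝ)) =
      algebraMap ℚ ℂ p.1 + algebraMap ℚ ℂ p.2 * Complex.I := by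
    simp [Complex.equivRealProdCLM_symm_apply]
  show Complex.equivRealProdCLM.symm ((p.1 : ℝ), (p.2 : ℝ)) ∈ K0
  rw [e]
  exact add_mem (K0.algebraMap_mem _) (mul_mem (K0.algebraMap_mem _) hI)

theorem aeval_mem_K0 {k : ℕ} (x : Fin k → ℂ) (hx : ∀ i, x i ∈ K0) (b : MvPolynomial (Fin k) ℚ) :
    MvPolynomial.aeval x b ∈ K0 := by
  induction b using MvPolynomial.induction_on with
  | C r =>
    rw [MvPolynomial.aeval_C]
    exact K0.algebraMap_mem r
  | add p q hp hq => rw [map_add]; exact add_mem hp hq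
  | mul_X p i hp => rw [map_mul, MvPolynomial.aeval_X]; exact mul_mem hp (hx i)

theorem dense_ne {k : ℕ} (q : MvPolynomial (Fin k) ℚ) (hq : q ≠ 0) :
    Dense {x : Fin k → ℂ | MvPolynomial.aeval x q ≠ 0} := by
  rw [dense_iff_inter_open]
  rintro U hU ⟨x₀, hx₀⟩
  by_contra hcon
  have hz : ∀ x ∈ U, MvPolynomial.aeval x q = 0 := by
    intro x hx
    by_contra h
    exact hcon ⟨x, hx, h⟩
  obtain ⟨ε, hε, hball⟩ := Metric.isOpen_iff.mp hU x₀ hx₀
  apply hq
  apply MvPolynomial.map_injective (algebraMap ℚ ℂ) (algebraMap ℚ ℂ).injective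
  rw [map_zero]
  apply MvPolynomial.funext_set (fun i => Metric.ball (x₀ i) ε)
  · intro i
    exact infinite_of_mem_nhds (x₀ i) (Metric.ball_mem_nhds _ hε)
  · intro x hx
    have hxU : x ∈ U := hball (by rw [ball_pi _ hε]; exact hx)
    have := hz x hxU
    rw [MvPolynomial.eval_map, map_zero, ← this, MvPolynomial.aeval_def]

/-- An element algebraic over `ℚ(x)` is, up to a nonzero value `b(x)`, a root of a monic
polynomial with coefficients in `ℚ[x]`. -/
theorem lift_root {k : ℕ} (x : Fin k → ℂ) (z : ℂ)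
    (hz : IsAlgebraic (IntermediateField.adjoin ℚ (Set.range x)) z) :
    ∃ (b : MvPolynomial (Fin k) ℚ) (P : Polynomial (MvPolynomial (Fin k) ℚ)),
      MvPolynomial.aeval x b ≠ 0 ∧ P.Monic ∧
        (spec x P).eval (MvPolynomial.aeval x b * z) = 0 := by
  have hz' : IsAlgebraic (Algebra.adjoin ℚ (Set.range x)) z :=
    (IsFractionRing.isAlgebraic_iff (Algebra.adjoin ℚ (Set.range x))
      (IntermediateField.adjoin ℚ (Set.range x)) ℂ).mpr hz
  obtain ⟨a, ha, hint⟩ := hz'.exists_integral_multiple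
  have hrange := Algebra.adjoin_range_eq_range_aeval ℚ x
  let f : MvPolynomial (Fin k) ℚ →+* Algebra.adjoin ℚ (Set.range x) :=
    ((MvPolynomial.aeval x : MvPolynomial (Fin k) ℚ →ₐ[ℚ] ℂ).codRestrict
      (Algebra.adjoin ℚ (Set.range x)) (fun p => by rw [hrange]; exact ⟨p, rfl⟩)).toRingHom
  have hf : ∀ p, ((f p : Algebra.adjoin ℚ (Set.range x)) : ℂ) = MvPolynomial.aeval x p :=
    fun p => rfl
  have hsurj : Function.Surjective f := by
    intro w
    have hw : (w : ℂ) ∈ (MvPolynomial.aeval x : MvPolynomial (Fin k) ℚ →ₐ[ℚ] ℂ).range := by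
      rw [← hrange]; exact w.2
    obtain ⟨p, hp⟩ := hw
    exact ⟨p, Subtype.ext (by rw [hf]; exact hp)⟩
  obtain ⟨b, hb⟩ := hsurj a
  obtain ⟨p, hpm, hp⟩ := hint
  have hl : p ∈ Polynomial.lifts f := by
    rw [Polynomial.mem_lifts]
    obtain ⟨q, hq⟩ := Polynomial.map_surjective f hsurj p
    exact ⟨q, hq⟩
  obtain ⟨q, hq1, _, hq3⟩ := Polynomial.lifts_and_natDegree_eq_and_monic hl hpm
  refine ⟨b, q, ?_, hq3, ?_⟩
  · rw [← hf, hb]
    intro h
    exact ha (Subtype.ext h)
  · have e1 : MvPolynomial.aeval x b * z = a • z := by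
      rw [← hf, hb]; rfl
    rw [e1]
    have e2 : (algebraMap (Algebra.adjoin ℚ (Set.range x)) ℂ).comp f =
        (MvPolynomial.aeval x : MvPolynomial (Fin k) ℚ →ₐ[ℚ] ℂ).toRingHom := by
      ext p
      · rfl
      · rfl
    rw [spec, Polynomial.eval_map, ← e2, ← Polynomial.eval₂_map, hq1]
    exact hp

end Pool.Agent.BDD44
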